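import Mathlib
import Pool.Agent.Lib_helper10.LogRank.Defs
import Pool.Agent.Lib_helper76.LD.Final1

/-!
The log-rank conjecture for all functions of bounded one-sided degree over `F_2`, with the sign
rank in the place of the rank.

`Y` is any finite set; `F (x, y) = u (x) + p_y (x)` for `x` in `F_2 ^ n`, where `u` is arbitrary and
every `p_y` is a polynomial of total degree at most `d` over `F_2` (no condition on the dependence on
`y`). `G` is any real matrix whose entries have the sign pattern of `F`. Then `F` has a
deterministic protocol of cost at most `C_d (1 + log rank G) ^ d`.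
-/

set_option autoImplicit false

namespace Pool.Agent.Results.MP_e5d384_lc.OneSidedDegree

open Pool.Agent.Lib_helper10.LogRank

theorem result (n d : ℕ) (Y : Type) [Fintype Y] (u : (Fin n → ZMod 2) → ZMod 2)
    (P : Y → MvPolynomial (Fin n) (ZMod 2)) (hP : ∀ y, (P y).totalDegree ≤ d)
    (F : (Fin n → ZMod 2) → Y → Bool)
    (hF : ∀ x y, F x y = true ↔ u x + MvPolynomial.eval x (P y) = 1)
    (G : Matrix (Fin n → ZMod 2) Y ℝ)
    (hG : ∀ x y, (F x y = true → 0 < G x y) ∧ (F x y = false → G x y < 0)) :
    ∃ π : Protocol (Fin n → ZMod 2) Y, (∀ x y, π.eval x y = F x y) ∧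
      π.cost ≤ 2 ^ (d ^ 2 + 5 * d + 1) * (Nat.log 2 G.rank + 1) ^ d :=
  Pool.Agent.Lib_helper76.LD.final_one n d Y u P hP F hF G hG

end Pool.Agent.Results.MP_e5d384_lc.OneSidedDegree
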